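import Pool.Agent.MVO.StmtsG

/-! MVO, row NAM. -/

namespace Pool.Agent.MVO.H75

open Pool.Agent.Helper14_MV Pool.Agent.Helper2_MV Pool.Agent.MVO

theorem fm_map (π : ℕ → ℕ) (l : List ℕ) : l.flatMap (fun c => [π c]) = l.map π := by
  induction l with
  | nil => rfl
  | cons a l ih => rw [List.flatMap_cons, ih]; rfl

theorem rr_map {β : FIC} (π : ℕ → ℕ) {u v : List ℕ} (h : RR β u v) :
    RR β (u.map π) (v.map π) := by
  have h1 := h.sub (fun c => [π c])
  rw [fm_map, fm_map] at h1
  exact h1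

theorem count_mapp (π : Equiv.Perm ℕ) (u : List ℕ) (c : ℕ) :
    (u.map π).count c = u.count (π.symm c) := by
  have h := List.count_map_of_injective u π π.injective (π.symm c)
  rw [Equiv.apply_symm_apply] at h
  exact h

theorem stB_map {ρ σ : FIC} (π : Equiv.Perm ℕ) {u v : List ℕ} (h : StB ρ σ u v) :
    StB ρ σ (u.map π) (v.map π) := by
  refine ⟨fun c => ?_, ?_⟩
  · rw [count_mapp, count_mapp]
    exact h.1 _
  · rcases h.2 with h2 | h2
    · exact Or.inl (rr_map π h2)
    · exact Or.inr (rr_map π h2)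

theorem nam (ren : RenStmt) : NamStmt := by
  intro β hβ ρ σ τ h1 h2 h3 h4 n1 n2 u v huv hch
  obtain ⟨k, π, B, e1, e2, e3⟩ := ren u
  have hch' : Relation.ReflTransGen (StB ρ σ) (u.map π) (v.map π) :=
    Relation.ReflTransGen.lift (fun l : List ℕ => l.map π) (fun a b h => stB_map π h) _ _ hch
  have huv' : RR τ (u.map π) (v.map π) := rr_map π huv
  rw [e1] at hch' huv'
  have h5 := hβ ρ σ τ h1 h2 h3 h4 n1 n2 k B (v.map π) e2 e3 huv' hch'
  rw [← e1] at h5
  have h6 := rr_map π.symm h5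
  rw [List.map_map, List.map_map] at h6
  have e4 : (π.symm : ℕ → ℕ) ∘ (π : ℕ → ℕ) = id := by
    funext x
    exact π.symm_apply_apply x
  rw [e4, List.map_id, List.map_id] at h6
  exact h6

end Pool.Agent.MVO.H75
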